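import Pool.Agent.K7.H73.KM.Low

/-!
# `K₂` of the iterated majority of threes: at least `c n ^ 0.184` independence is necessary

Let `R_h` be the iterated majority of threes of `n = 3 ^ h` bits, and let `ε(k)` be the maximum minus the
minimum of `Q(R_h = 1)` over the distributions `Q` on `{0,1}^n` with fair bits, every `k` of which are
independent.

Theorem.  If `4 k ² + 2 ≤ (3/2) ^ h`, then `ε(k) ≥ 1/25`.  So every function `k(n)` in `K₂` satisfies
`4 k(n)² + 2 > (3/2) ^ h = n ^ (log_3 (3/2))` for all large `n = 3 ^ h`, that is, `k(n) ≥ c n ^ 0.1845...`.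
(For the ordinary majority of `n` bits every function `k(n)` which tends to infinity is in `K₂`.)

Proof.  Let `F = ± R_h`, and let `T_ρ` be the noise operator.  With the extremal nodes `cos (j π / k)` of
the Chebyshev polynomial `T_k`, `y = cosh (1/k)` and `ρ_j = cos (j π / k) / y` there are weights `λ_j` with
`∑ λ_j p(ρ_j) = p(1)` for all the polynomials `p` of degree at most `k`, and
`∑ |λ_j| = T_k(y) = cosh 1`.  The function `G = F - ∑ λ_j T_{ρ_j} F` is orthogonal to all the functions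
of at most `k` bits (the average of `T_ρ F` over a cylinder given by `i ≤ k` bits is a polynomial of
degree `i` in `ρ`), and `|G| ≤ 1 + cosh 1`.  So `2 ^ (-n) (1 + G / (1 + cosh 1))` is a distribution with
`k`-wise independent fair bits.  Under it `R_h` has the bias
`(1 - ∑ λ_j S(ρ_j)) / (2 (1 + cosh 1))`, where `S(ρ)`, the noise stability of `F`, is the `h`-th iterate
of `(3 ρ + ρ ^ 3) / 4`, and `|S(ρ)| ≤ 1/2` for `|ρ| ≤ 1/y` if `(3/2) ^ h (1 - 1/y) ≥ 2`.
-/

set_option autoImplicit false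

namespace Pool.Agent.Results.MP_28f1b9_co.LowerThreshold

open Pool.Agent.K7.H73.KM

theorem result :
    (∀ h k : ℕ, 1 ≤ k → 4 * (k : ℝ) ^ 2 + 2 ≤ (3 / 2) ^ h → 1 / 25 ≤ eps (Rh h) k) ∧
    ∀ k ∈ KTwo, ∀ᶠ h : ℕ in Filter.atTop, (3 / 2 : ℝ) ^ h < 4 * (k (3 ^ h) : ℝ) ^ 2 + 2 := by
  refine ⟨le_eps, ?_⟩
  rintro k ⟨hk, hlim⟩
  have h1 := hlim.eventually (gt_mem_nhds (show (0 : ℝ) < 1 / 25 by norm_num))
  filter_upwards [h1] with h hh
  by_contra hc
  push Not at hc
  exact absurd (le_eps h (k (3 ^ h)) (hk _) hc) (not_le.2 hh)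

end Pool.Agent.Results.MP_28f1b9_co.LowerThreshold
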