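import Pool.Agent.K7.H73.KM.Tree

/-!
# `K₂` of the iterated majority of threes: `ω(n ^ 0.835)` independence is sufficient

Let `R_h` be the iterated majority of threes of `n = 3 ^ h` bits, and let `ε(k)` be the maximum minus the
minimum of `Q(R_h = 1)` over the distributions `Q` on `{0,1}^n` with fair bits, every `k` of which are
independent.

Theorem.  `ε(k) ≤ (5/2) ^ h / (k + 1)`.  So every function `k(n)` with `k(3 ^ h) / (5/2) ^ h → ∞` is in
`K₂`; here `(5/2) ^ h = n ^ (log_3 (5/2)) = n ^ 0.834...`.

Proof.  The decision tree which evaluates the third block of a node only if the first two have different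
values reads `(5/2) ^ h` bits on average.  Each leaf of depth at most `k` has the same probability under
all these distributions, and the other leaves have the total probability at most `(5/2) ^ h / (k + 1)`
under the uniform distribution.
-/

set_option autoImplicit false

namespace Pool.Agent.Results.MP_28f1b9_co.UpperThreshold

open Pool.Agent.K7.H73.KM

theorem result :
    (∀ h k : ℕ, 1 ≤ k → eps (Rh h) k ≤ (5 / 2) ^ h / (k + 1)) ∧
    ∀ k : ℕ → ℕ, (∀ n, 1 ≤ k n) →
      Filter.Tendsto (fun h : ℕ => (k (3 ^ h) : ℝ) / (5 / 2) ^ h) Filter.atTop Filter.atTop →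
        k ∈ KTwo := by
  refine ⟨eps_le, fun k hk hlim => ⟨hk, ?_⟩⟩
  refine squeeze_zero (g := fun h : ℕ => ((k (3 ^ h) : ℝ) / (5 / 2) ^ h)⁻¹)
    (fun h => eps_nonneg (hk _) _) (fun h => ?_) hlim.inv_tendsto_atTop
  refine (eps_le h _ (hk _)).trans ?_
  have h1 : (1 : ℝ) ≤ k (3 ^ h) := by exact_mod_cast hk _
  rw [inv_div]
  gcongr
  linarith

end Pool.Agent.Results.MP_28f1b9_co.UpperThreshold
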